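import Pool.Agent.Lib.MP_144d21_co.XU.Iface

/-! # STEPC: one exploration step -/

set_option autoImplicit false

namespace Pool.Agent.Xu.H78

open Finset

section

variable {V : Type} [Fintype V] [DecidableEq V]

theorem cL_congr {G : SimpleGraph V} {S A : Finset V} {v : V} {i : ℕ} {c c0 : V → ℕ}
    (h : ∀ w ∈ A, c w = c0 w) : cL G S A v i c = cL G S A v i c0 := by
  classical
  unfold cL
  congr 1
  refine Finset.filter_congr fun c' _ => ?_
  refine and_congr_left fun _ => ?_
  constructor
  · intro h1 w hw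
    rw [h1 w hw, h w hw]
  · intro h1 w hw
    rw [h1 w hw, h w hw]

theorem cN_congr {G : SimpleGraph V} {S A : Finset V} {c c0 : V → ℕ}
    (h : ∀ w ∈ A, c w = c0 w) : cN G S A c = cN G S A c0 := by
  classical
  unfold cN
  congr 1
  refine Finset.filter_congr fun c' _ => ?_
  constructor
  · intro h1 w hw
    rw [h1 w hw, h w hw]
  · intro h1 w hw
    rw [h1 w hw, h w hw]

theorem cN_insert {G : SimpleGraph V} {S A : Finset V} {v : V} {c : V → ℕ} :
    cN G S (insert v A) c = cL G S A v (c v) c := by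
  classical
  unfold cN cL
  congr 1
  refine Finset.filter_congr fun c' _ => ?_
  rw [Finset.forall_mem_insert]
  exact and_comm

/-- sums over a class -/
theorem sum_class {G : SimpleGraph V} {S A : Finset V} {v : V} (hv : v ∈ S) (c0 : V → ℕ)
    (φ : ℕ → ℝ) :
    ∑ c ∈ (cols G S 4).filter (fun c => ∀ w ∈ A, c w = c0 w), φ (c v) =
      ∑ l ∈ range 4, (cL G S A v l c0 : ℝ) * φ l := by
  classical
  rw [← Finset.sum_fiberwise_of_maps_to (g := fun c : V → ℕ => c v) (t := range 4)
    (fun c hc => by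
      rw [Finset.mem_filter, mem_cols] at hc
      exact Finset.mem_range.2 (hc.1.1 v hv))]
  refine Finset.sum_congr rfl fun l _ => ?_
  have h1 : ∀ c ∈ ((cols G S 4).filter (fun c => ∀ w ∈ A, c w = c0 w)).filter
      (fun c => c v = l), φ (c v) = φ l := by
    intro c hc
    rw [(Finset.mem_filter.1 hc).2]
  rw [Finset.sum_congr rfl h1, Finset.sum_const, nsmul_eq_mul, Finset.filter_filter]
  congr 2

theorem cN_eq {G : SimpleGraph V} {S A : Finset V} {v : V} (hv : v ∈ S) (c0 : V → ℕ) :
    cN G S A c0 = cL G S A v 0 c0 + cL G S A v 1 c0 + cL G S A v 2 c0 + cL G S A v 3 c0 := by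
  classical
  have h := sum_class (G := G) (A := A) hv c0 (fun _ => 1)
  rw [Finset.sum_const, nsmul_eq_mul, mul_one] at h
  simp only [Finset.sum_range_succ, Finset.sum_range_zero, mul_one, zero_add] at h
  have h2 : ((cN G S A c0 : ℕ) : ℝ) =
      (((cols G S 4).filter (fun c => ∀ w ∈ A, c w = c0 w)).card : ℝ) := by
    congr 1
  rw [← h2] at h
  exact_mod_cast h

end

theorem stepc (ha : StepaS) (hb : StepbS) : StepcS := by
  intro V _ _ G S A v u hv hvA hAS hu huv
  classical
  have h1 : ∑ c ∈ cols G S 4, ∑ s ∈ prs, (Real.log (cM G S A s.1 s.2 c) -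
      Real.log (cM G S (insert v A) s.1 s.2 c)) ≤
      ∑ c ∈ cols G S 4, ∑ s ∈ prs, (if c v = s.1 ∨ c v = s.2 then
        Real.log (cL G S A v s.1 c + cL G S A v s.2 c : ℕ) -
          Real.log (cL G S A v (c v) c) else 0) := by
    rw [Finset.sum_comm]
    rw [Finset.sum_comm (s := cols G S 4)]
    refine Finset.sum_le_sum fun s hs => ?_
    have hs' : s.1 < s.2 ∧ s.2 < 4 := by
      unfold prs at hs
      simp only [Finset.mem_insert, Finset.mem_singleton] at hs
      rcases hs with rfl | rfl | rfl | rfl | rfl | rfl <;> simp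
    exact ha V G S A v s.1 s.2 hv hvA hAS hs'.1 hs'.2
  refine h1.trans ?_
  rw [Finset.mul_sum]
  let g : (V → ℕ) → (V → ℕ) := fun c x => if x ∈ A then c x else 0
  have hg : ∀ c c0 : V → ℕ, g c = g c0 ↔ ∀ w ∈ A, c w = c0 w := by
    intro c c0
    constructor
    · intro h w hw
      have h2 := congrFun h w
      simp only [g, if_pos hw] at h2
      exact h2
    · intro h
      funext x
      by_cases hx : x ∈ A
      · simp only [g, if_pos hx]; exact h x hx
      · simp only [g, if_neg hx]
  rw [← Finset.sum_fiberwise_of_maps_to (g := g) (t := (cols G S 4).image g)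
    (fun c hc => Finset.mem_image_of_mem g hc)]
  rw [← Finset.sum_fiberwise_of_maps_to (s := cols G S 4) (g := g)
    (t := (cols G S 4).image g) (fun c hc => Finset.mem_image_of_mem g hc)]
  refine Finset.sum_le_sum fun y hy => ?_
  obtain ⟨c0, hc0, rfl⟩ := Finset.mem_image.1 hy
  have hfil : (cols G S 4).filter (fun c => g c = g c0) =
      (cols G S 4).filter (fun c => ∀ w ∈ A, c w = c0 w) := by
    refine Finset.filter_congr fun c _ => hg c c0
  rw [hfil]
  let φ1 : ℕ → ℝ := fun l => ∑ s ∈ prs, (if l = s.1 ∨ l = s.2 then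
        Real.log (cL G S A v s.1 c0 + cL G S A v s.2 c0 : ℕ) -
          Real.log (cL G S A v l c0) else 0)
  let φ2 : ℕ → ℝ := fun l => 13 / 10 * (Real.log (cL G S A v 0 c0 + cL G S A v 1 c0 +
        cL G S A v 2 c0 + cL G S A v 3 c0 : ℕ) - Real.log (cL G S A v l c0))
  have e1 : ∀ c ∈ (cols G S 4).filter (fun c => ∀ w ∈ A, c w = c0 w),
      (∑ s ∈ prs, (if c v = s.1 ∨ c v = s.2 then
        Real.log (cL G S A v s.1 c + cL G S A v s.2 c : ℕ) -
          Real.log (cL G S A v (c v) c) else 0)) = φ1 (c v) := by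
    intro c hc
    have hc' := (Finset.mem_filter.1 hc).2
    refine Finset.sum_congr rfl fun s _ => ?_
    rw [cL_congr hc', cL_congr hc', cL_congr hc']
  have e2 : ∀ c ∈ (cols G S 4).filter (fun c => ∀ w ∈ A, c w = c0 w),
      13 / 10 * (Real.log (cN G S A c) - Real.log (cN G S (insert v A) c)) = φ2 (c v) := by
    intro c hc
    have hc' := (Finset.mem_filter.1 hc).2
    rw [cN_insert, cL_congr hc', cN_congr hc', cN_eq hv]
  rw [Finset.sum_congr rfl e1, Finset.sum_congr rfl e2, sum_class hv c0 φ1,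
    sum_class hv c0 φ2]
  have h0 : cL G S A v (c0 u) c0 = 0 := by
    unfold cL
    rw [Finset.card_eq_zero, Finset.filter_eq_empty_iff]
    rintro c hc ⟨h2, h3⟩
    rw [mem_cols] at hc
    refine hc.2.2 u (hAS hu) v hv huv ?_
    rw [h2 u hu, h3]
  have h4 : c0 u < 4 := (mem_cols.1 hc0).1 u (hAS hu)
  have h5 := hb (fun i => cL G S A v i c0) (c0 u) h4 h0
  refine h5.trans (le_of_eq ?_)
  rw [Finset.mul_sum]
  refine Finset.sum_congr rfl fun l _ => ?_
  simp only [φ2]
  ring

end Pool.Agent.Xu.H78
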